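import Pool.Agent.W2helper21.RF.Poly

/-!
# Few modifications for one addition gate, and for functions of bounded-read formulas
-/

namespace Pool.Agent.W2helper21.RF

open MvPolynomial Pool.Agent.W2helper94.PIT
open Pool.Agent.W2helper98.RF (plug_rdl plug_loc)
open Pool.Agent.W2helper24.RF (plug_vars)
open Pool.Agent.W2helper21.ROT (trdeg_reduce')
open Pool.Agent.W2helper21.FRO (TrdegLE)

variable {F : Type*} [Field F]

/-- **One addition gate**: if no subformula of `f` and of `g` vanishes at `a` and `f + g ≠ 0` then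
`f + g` does not vanish at a point which differs from `a` in few coordinates. -/
theorem rigid_add [CharZero F] {k b n : ℕ} {f g : Fm F} (hloc : (Fm.add f g).Loc b)
    (hrd : ∀ u, (Fm.add f g).rdc u ≤ k) (hn : ∀ u ∈ (Fm.add f g).vars, u < n) {a : ℕ → F}
    (hf : f.Good a) (hg : g.Good a) (h : (Fm.add f g).poly ≠ 0) :
    ∃ x, Md a (Rn k b 1) x ∧ eval x (Fm.add f g).poly ≠ 0 := by
  classical
  have hl : Plug (Fm.add f g) [(false, g), (false, f)] := Plug.addL (Plug.nil f)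
  have hval : ∀ x : ℕ → F, lval (fun _ : Unit => [(false, g), (false, f)]) (X ()) x =
      eval x (Fm.add f g).poly := by
    intro x
    unfold lval
    rw [eval_X, hl.eval]
  by_contra hcon
  push Not at hcon
  obtain ⟨x0, hx0⟩ := exists_eval_ne h
  apply hx0
  rw [← hval]
  refine rigid (Pool.Agent.W2helper98.RF.p_sel Pool.Agent.W2helper24.RF.p_cat) (k := k)
    (b := b) (n := n) (ls := fun _ : Unit => [(false, g), (false, f)])
    (fun _ p hp => plug_loc hl hloc p hp)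
    (fun _ u => by rw [plug_rdl hl u]; exact hrd u)
    (fun _ p hp u hu => hn u ((plug_vars hl u).mpr ⟨p, hp, hu⟩)) (a := a)
    (fun _ p hp => ?_) (X ()) (fun x hx => ?_) x0
  · rcases List.mem_cons.mp hp with rfl | hp
    · exact hg
    · rw [List.mem_singleton] at hp
      rw [hp]
      exact hf
  · rw [hval]
    apply hcon
    rw [Fintype.card_unit] at hx
    exact hx

/-- the same for functions of formulas -/
theorem rigid_fun [CharZero F] {τ : Type} [Fintype τ] [DecidableEq τ] {k b n : ℕ} {D : τ → Fm F}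
    (hloc : ∀ t, (D t).Loc b) (hrd : ∀ t u, (D t).rdc u ≤ k)
    (hn : ∀ t, ∀ u ∈ (D t).vars, u < n) {a : ℕ → F} (hgood : ∀ t, (D t).Good a)
    (Ψ : MvPolynomial τ F) {x0 : ℕ → F} (hx0 : eval (fun t => eval x0 (D t).poly) Ψ ≠ 0) :
    ∃ x, Md a (Rn k b (Fintype.card τ)) x ∧ eval (fun t => eval x (D t).poly) Ψ ≠ 0 := by
  have hval : ∀ x : ℕ → F, lval (fun t => [(false, D t)]) Ψ x =
      eval (fun t => eval x (D t).poly) Ψ := by
    intro x
    unfold lval
    congr 2
    funext t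
    rw [(Plug.nil (D t)).eval]
  by_contra hcon
  push Not at hcon
  apply hx0
  rw [← hval]
  refine rigid (Pool.Agent.W2helper98.RF.p_sel Pool.Agent.W2helper24.RF.p_cat) (k := k)
    (b := b) (n := n) (ls := fun t => [(false, D t)]) (fun t p hp => ?_)
    (fun t u => ?_) (fun t p hp => ?_) (a := a)
    (fun t p hp => ?_) Ψ (fun x hx => ?_) x0
  · exact plug_loc (Plug.nil (D t)) (hloc t) p hp
  · rw [plug_rdl (Plug.nil (D t)) u]
    exact hrd t u
  · rw [List.mem_singleton] at hp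
    rw [hp]
    exact hn t
  · rw [List.mem_singleton] at hp
    rw [hp]
    exact hgood t
  · rw [hval]
    exact hcon x hx

/-- `p` is computed by a formula without subformulas vanishing at `a` -/
def GoodAt (k b n : ℕ) (a : ℕ → F) (p : MvPolynomial (Fin n) F) : Prop :=
  ∃ D : Fm F, D.poly = rename Fin.val p ∧ D.Loc b ∧ (∀ u, D.rdc u ≤ k) ∧
    (∀ u ∈ D.vars, u < n) ∧ D.Good a

theorem rigid_bind [CharZero F] {n k b T : ℕ} {a : ℕ → F} {p : Fin T → MvPolynomial (Fin n) F}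
    (hp : ∀ i, p i ≠ 0 → GoodAt k b n a (p i)) (Ψ : MvPolynomial (Fin T) F)
    (h0 : bind₁ p Ψ ≠ 0) : ∃ x : ℕ → F, Md a (Rn k b T) x ∧
      eval (fun l : Fin n => x l) (bind₁ p Ψ) ≠ 0 := by
  classical
  have hD : ∀ i, ∃ D : Fm F, D.Loc b ∧ (∀ u, D.rdc u ≤ k) ∧ (∀ u ∈ D.vars, u < n) ∧ D.Good a ∧
      (p i ≠ 0 → D.poly = rename Fin.val (p i)) := by
    intro i
    by_cases hpi : p i = 0
    · have h1 := leaf_one_ad (K := F) k b n
      refine ⟨Fm.leaf 1, h1.loc, h1.rd, h1.vr, ?_, fun h => absurd hpi h⟩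
      show eval a (1 : MvPolynomial ℕ F) ≠ 0
      rw [map_one]
      exact one_ne_zero
    · obtain ⟨D, h1, h2, h3, h4, h5⟩ := hp i hpi
      exact ⟨D, h2, h3, h4, h5, fun _ => h1⟩
  choose D hDl hDr hDv hDg hDp using hD
  let Ψ' : MvPolynomial (Fin T) F := bind₁ (fun i => if p i = 0 then 0 else X i) Ψ
  have heval : ∀ x' : ℕ → F, eval (fun t => eval x' (D t).poly) Ψ' =
      eval (fun l : Fin n => x' l) (bind₁ p Ψ) := by
    intro x'
    rw [Pool.Agent.W2helper21.ROT.eval_bind, Pool.Agent.W2helper21.ROT.eval_bind]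
    congr 2
    funext i
    by_cases hpi : p i = 0
    · rw [if_pos hpi, hpi, map_zero, map_zero]
    · rw [if_neg hpi, eval_X, hDp i hpi, eval_ren]
  have hex : ∃ x : Fin n → F, eval x (bind₁ p Ψ) ≠ 0 := by
    by_contra hcon
    push Not at hcon
    exact h0 (MvPolynomial.funext fun x => by rw [hcon x, map_zero])
  obtain ⟨x, hx⟩ := hex
  let x0 : ℕ → F := fun l => if h : l < n then x ⟨l, h⟩ else 0
  have hx0 : (fun l : Fin n => x0 l) = x := by
    funext l
    simp [x0]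
  rw [← hx0, ← heval] at hx
  obtain ⟨y, hy, hyne⟩ := rigid_fun hDl hDr hDv hDg Ψ' hx
  rw [Fintype.card_fin] at hy
  rw [heval] at hyne
  exact ⟨y, hy, hyne⟩

/-- the same for bounded transcendence degree -/
theorem rigid_trdeg [CharZero F] {n k b s T : ℕ} {a : ℕ → F} {p : Fin s → MvPolynomial (Fin n) F}
    (hp : ∀ i, p i ≠ 0 → GoodAt k b n a (p i)) (hT : TrdegLE T p) (Ψ : MvPolynomial (Fin s) F)
    (h0 : bind₁ p Ψ ≠ 0) : ∃ x : ℕ → F, Md a (Rn k b T) x ∧
      eval (fun l : Fin n => x l) (bind₁ p Ψ) ≠ 0 := by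
  rcases Nat.eq_zero_or_pos s with rfl | hs
  · obtain ⟨c, rfl⟩ := C_surjective (Fin 0) Ψ
    refine ⟨a, Md.self a _, ?_⟩
    rw [bind₁_C_right] at h0 ⊢
    rw [eval_C]
    intro h
    exact h0 (by rw [h, map_zero])
  · obtain ⟨e, Q, hQ, hdvd⟩ := trdeg_reduce' hs p hT Ψ h0
    obtain ⟨x, hx, hxne⟩ := rigid_bind (fun t => hp (e t)) Q hQ
    obtain ⟨R, hR⟩ := hdvd
    refine ⟨x, hx, fun hcon => hxne ?_⟩
    rw [hR, map_mul, hcon, zero_mul]

end Pool.Agent.W2helper21.RF
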