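import Pool.Agent.W2helper21.RF.Rigid
import Pool.Agent.W2helper24.RF.CAT
import Pool.Agent.W2helper98.RF.Sel
import Pool.Agent.W2helper15.RF.Str
import Pool.Agent.W4helper65.RF.Red

/-!
# The generator hits functions of bounded-read formulas
-/

namespace Pool.Agent.W2helper21.RF

open Matrix MvPolynomial Pool.Agent.W2helper94.PIT Pool.Agent.W2helper21.FRO
open Pool.Agent.W2helper98.RF (plug_rdl plug_loc)
open Pool.Agent.W2helper24.RF (plug_vars)

variable {F : Type*} [Field F]

theorem plug_nz {D : Fm F} {l : List (Bool × Fm F)} (h : Plug D l) (hD : D.NZ) :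
    ∀ p ∈ l, p.2.NZ := by
  induction h with
  | nil D =>
    intro p hp
    rw [List.mem_singleton] at hp
    rw [hp]
    exact hD
  | addL h ih =>
    intro p hp
    rcases List.mem_cons.mp hp with rfl | hp
    · exact hD.2.1
    · exact ih hD.1 p hp
  | addR h ih =>
    intro p hp
    rcases List.mem_cons.mp hp with rfl | hp
    · exact hD.1
    · exact ih hD.2.1 p hp
  | mulL h ih =>
    intro p hp
    rcases List.mem_cons.mp hp with rfl | hp
    · exact hD.2
    · exact ih hD.1 p hp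
  | mulR h ih =>
    intro p hp
    rcases List.mem_cons.mp hp with rfl | hp
    · exact hD.1
    · exact ih hD.2 p hp

theorem Fm.NZ.ne : ∀ {D : Fm F}, D.NZ → D.poly ≠ 0 := by
  intro D
  induction D with
  | leaf p => exact fun h => h
  | add f g _ _ => exact fun h => h.2.2
  | mul f g ihf ihg => exact fun h => mul_ne_zero (ihf h.1) (ihg h.2)

theorem plug_rdc {D : Fm F} {l : List (Bool × Fm F)} (h : Plug D l) (u : ℕ) :
    ∀ p ∈ l, p.2.rdc u ≤ D.rdc u := by
  intro p hp
  rw [← plug_rdl h u]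
  unfold rdl
  exact List.single_le_sum (fun _ _ => Nat.zero_le _) _ (List.mem_map.mpr ⟨p, hp, rfl⟩)

theorem Fm.st_zero : ∀ {D : Fm F}, D.vars = ∅ → D.st = 0 := by
  intro D
  induction D with
  | leaf p => exact fun _ => rfl
  | add f g ihf ihg =>
    intro h
    have h' : f.vars ∪ g.vars = ∅ := h
    rw [Finset.union_eq_empty] at h'
    unfold Fm.st
    rw [if_pos h'.1]
    exact ihg h'.2
  | mul f g ihf ihg =>
    intro h
    have h' : f.vars ∪ g.vars = ∅ := h
    rw [Finset.union_eq_empty] at h'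
    unfold Fm.st
    rw [if_pos h'.1]
    exact ihg h'.2

theorem st_add (f g : Fm F) : f.st ≤ (Fm.add f g).st ∧ g.st ≤ (Fm.add f g).st := by
  by_cases hf : f.vars = ∅
  · have e : (Fm.add f g).st = g.st := by rw [Fm.st, if_pos hf]
    rw [e, Fm.st_zero hf]
    exact ⟨Nat.zero_le _, le_rfl⟩
  · by_cases hg : g.vars = ∅
    · have e : (Fm.add f g).st = f.st := by rw [Fm.st, if_neg hf, if_pos hg]
      rw [e, Fm.st_zero hg]
      exact ⟨le_rfl, Nat.zero_le _⟩
    · by_cases hfg : f.st = g.st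
      · have e : (Fm.add f g).st = f.st + 1 := by rw [Fm.st, if_neg hf, if_neg hg, if_pos hfg]
        omega
      · have e : (Fm.add f g).st = max f.st g.st := by
          rw [Fm.st, if_neg hf, if_neg hg, if_neg hfg]
        rw [e]
        exact ⟨le_max_left _ _, le_max_right _ _⟩

theorem st_mul (f g : Fm F) : f.st ≤ (Fm.mul f g).st ∧ g.st ≤ (Fm.mul f g).st := by
  by_cases hf : f.vars = ∅
  · have e : (Fm.mul f g).st = g.st := by rw [Fm.st, if_pos hf]
    rw [e, Fm.st_zero hf]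
    exact ⟨Nat.zero_le _, le_rfl⟩
  · by_cases hg : g.vars = ∅
    · have e : (Fm.mul f g).st = f.st := by rw [Fm.st, if_neg hf, if_pos hg]
      rw [e, Fm.st_zero hg]
      exact ⟨le_rfl, Nat.zero_le _⟩
    · by_cases hfg : f.st = g.st
      · have e : (Fm.mul f g).st = f.st + 1 := by rw [Fm.st, if_neg hf, if_neg hg, if_pos hfg]
        omega
      · have e : (Fm.mul f g).st = max f.st g.st := by
          rw [Fm.st, if_neg hf, if_neg hg, if_neg hfg]
        rw [e]
        exact ⟨le_max_left _ _, le_max_right _ _⟩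

/-- formulas which the generator hits at level `h` -/
def Lv (h : ℕ) (D : Fm F) : Prop := D.st < h ∨ D.vars = ∅ ∨ ∃ p, D = Fm.leaf p

theorem Lv.add {h : ℕ} {f g : Fm F} (H : Lv h (Fm.add f g)) : Lv h f ∧ Lv h g := by
  rcases H with H | H | ⟨p, H⟩
  · exact ⟨Or.inl (lt_of_le_of_lt (st_add f g).1 H), Or.inl (lt_of_le_of_lt (st_add f g).2 H)⟩
  · have h' : f.vars ∪ g.vars = ∅ := H
    rw [Finset.union_eq_empty] at h'
    exact ⟨Or.inr (Or.inl h'.1), Or.inr (Or.inl h'.2)⟩
  · cases H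

theorem Lv.mul {h : ℕ} {f g : Fm F} (H : Lv h (Fm.mul f g)) : Lv h f ∧ Lv h g := by
  rcases H with H | H | ⟨p, H⟩
  · exact ⟨Or.inl (lt_of_le_of_lt (st_mul f g).1 H), Or.inl (lt_of_le_of_lt (st_mul f g).2 H)⟩
  · have h' : f.vars ∪ g.vars = ∅ := H
    rw [Finset.union_eq_empty] at h'
    exact ⟨Or.inr (Or.inl h'.1), Or.inr (Or.inl h'.2)⟩
  · cases H

/-- the admissible formulas -/
structure Ad (k b n : ℕ) (D : Fm F) : Prop where
  nz : D.NZ
  loc : D.Loc b
  rd : ∀ u, D.rdc u ≤ k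
  vr : ∀ u ∈ D.vars, u < n

theorem Ad.plug {k b n : ℕ} {D : Fm F} (hD : Ad k b n D) {l : List (Bool × Fm F)}
    (h : Plug D l) : ∀ p ∈ l, Ad k b n p.2 := fun p hp =>
  ⟨plug_nz h hD.nz p hp, plug_loc h hD.loc p hp, fun u => (plug_rdc h u p hp).trans (hD.rd u),
    fun u hu => hD.vr u ((plug_vars h u).mpr ⟨p, hp, hu⟩)⟩

theorem Ad.add {k b n : ℕ} {f g : Fm F} (h : Ad k b n (Fm.add f g)) :
    Ad k b n f ∧ Ad k b n g :=
  ⟨⟨h.nz.1, h.loc.1, fun u => (Nat.le_add_right _ _).trans (h.rd u),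
    fun u hu => h.vr u (Finset.mem_union_left _ hu)⟩,
   ⟨h.nz.2.1, h.loc.2, fun u => (Nat.le_add_left _ _).trans (h.rd u),
    fun u hu => h.vr u (Finset.mem_union_right _ hu)⟩⟩

theorem Ad.mul {k b n : ℕ} {f g : Fm F} (h : Ad k b n (Fm.mul f g)) :
    Ad k b n f ∧ Ad k b n g :=
  ⟨⟨h.nz.1, h.loc.1, fun u => (Nat.le_add_right _ _).trans (h.rd u),
    fun u hu => h.vr u (Finset.mem_union_left _ hu)⟩,
   ⟨h.nz.2, h.loc.2, fun u => (Nat.le_add_left _ _).trans (h.rd u),
    fun u hu => h.vr u (Finset.mem_union_right _ hu)⟩⟩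

theorem gen_PF (n q : ℕ) (p : MvPolynomial ℕ F) :
    IsPF (fun s : ℕ ⊕ ℕ → F => eval (G n id q s) p) := by
  have h0 : IsPF (fun x : ℕ → F => eval x p) := ⟨p, fun _ => rfl⟩
  exact h0.comp (fun l => G_PF n id q l)

theorem exists_mul [CharZero F] {n q : ℕ} {p p' : MvPolynomial ℕ F}
    (h : ∃ s : ℕ ⊕ ℕ → F, eval (G n id q s) p ≠ 0)
    (h' : ∃ s : ℕ ⊕ ℕ → F, eval (G n id q s) p' ≠ 0) :
    ∃ s : ℕ ⊕ ℕ → F, eval (G n id q s) (p * p') ≠ 0 := by
  obtain ⟨s, hs⟩ := IsPF.exists_common (Finset.univ : Finset Bool)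
    (f := fun t (s : ℕ ⊕ ℕ → F) => eval (G n id q s) (if t then p else p'))
    (fun t _ => gen_PF n q _) (fun t _ => by
      cases t
      · exact h'
      · exact h)
  have h1 := hs true (Finset.mem_univ _)
  have h2 := hs false (Finset.mem_univ _)
  refine ⟨s, ?_⟩
  rw [map_mul]
  exact mul_ne_zero (by simpa using h1) (by simpa using h2)

/-- all subformulas are hit together -/
theorem gpol_hit [CharZero F] {k b n q h : ℕ}
    (H : ∀ D : Fm F, Ad k b n D → Lv h D → ∃ s : ℕ ⊕ ℕ → F, eval (G n id q s) D.poly ≠ 0) :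
    ∀ D : Fm F, Ad k b n D → Lv h D → ∃ s : ℕ ⊕ ℕ → F, eval (G n id q s) D.gpol ≠ 0 := by
  intro D
  induction D with
  | leaf p => exact fun h1 h2 => H _ h1 h2
  | add f g ihf ihg =>
    intro h1 h2
    exact exists_mul (exists_mul (ihf h1.add.1 h2.add.1) (ihg h1.add.2 h2.add.2)) (H _ h1 h2)
  | mul f g ihf ihg =>
    intro h1 h2
    exact exists_mul (ihf h1.mul.1 h2.mul.1) (ihg h1.mul.2 h2.mul.2)

theorem exists_eval_ne [CharZero F] {p : MvPolynomial ℕ F} (h : p ≠ 0) :
    ∃ x : ℕ → F, eval x p ≠ 0 := by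
  by_contra hcon
  push Not at hcon
  exact h (MvPolynomial.funext fun x => by rw [hcon x, map_zero])

theorem hit_mono {n q q' : ℕ} (hq : q ≤ q') {p : MvPolynomial ℕ F}
    (h : ∃ s : ℕ ⊕ ℕ → F, eval (G n id q s) p ≠ 0) :
    ∃ s : ℕ ⊕ ℕ → F, eval (G n id q' s) p ≠ 0 := by
  obtain ⟨s, hs⟩ := h
  obtain ⟨s', hs'⟩ := G_mono n id hq s
  exact ⟨s', by rw [hs']; exact hs⟩

/-- **The induction on the Strahler number.** -/
theorem level [CharZero F] {k b n : ℕ} : ∀ h (D : Fm F), Ad k b n D → Lv h D →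
    ∃ s : ℕ ⊕ ℕ → F, eval (G n id (b + h * Rn k b 1) s) D.poly ≠ 0 := by
  intro h
  induction h with
  | zero =>
    intro D hD hL
    rcases hL with hL | hL | ⟨p, rfl⟩
    · omega
    · obtain ⟨x, hx⟩ := exists_eval_ne hD.nz.ne
      refine ⟨fun _ => 0, ?_⟩
      rw [D.eval_congr (x' := x)]
      · exact hx
      · intro u hu
        rw [hL] at hu
        exact absurd hu (Finset.notMem_empty u)
    · obtain ⟨x, hx⟩ := exists_eval_ne hD.nz.ne
      classical
      obtain ⟨s', hs'⟩ := G_add (F := F) (n := n) (σ := id) (fun l hl => hl)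
        (fun l _ l' _ h => h) 0 (fun _ => 0) b
        (fun u => if u ∈ p.vars then x u else G n id 0 (fun _ => 0) u)
        ⟨p.vars, hD.loc, fun l hl => if_neg hl⟩
      refine ⟨s', ?_⟩
      rw [Nat.zero_mul, Nat.add_zero]
      rw [Nat.zero_add] at hs'
      rw [(Fm.leaf p).eval_congr (x' := x)]
      · exact hx
      · intro u hu
        rw [hs' u (hD.vr u hu)]
        exact if_pos hu
  | succ h ih =>
    intro D hD hL
    have hle : b + h * Rn k b 1 ≤ b + (h + 1) * Rn k b 1 := by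
      have : (h + 1) * Rn k b 1 = h * Rn k b 1 + Rn k b 1 := by ring
      omega
    rcases hL with hL | hL
    swap
    · exact hit_mono hle (ih D hD (Or.inr hL))
    by_cases hv : D.vars = ∅
    · exact hit_mono hle (ih D hD (Or.inr (Or.inl hv)))
    obtain ⟨l, hl, hlp⟩ := Pool.Agent.W2helper15.RF.p_path F D hv
    have hlad := hD.plug hl
    have hllv : ∀ p ∈ l, Lv h p.2 := by
      intro p hp
      rcases hlp p hp with h1 | h1 | h1
      · exact Or.inl (by omega)
      · exact Or.inr (Or.inl h1)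
      · exact Or.inr (Or.inr h1.2)
    obtain ⟨s, hs⟩ : ∃ s : ℕ ⊕ ℕ → F, ∀ p ∈ l, eval (G n id (b + h * Rn k b 1) s) p.2.gpol ≠ 0 := by
      classical
      have h1 : ∀ l' : List (Bool × Fm F), (∀ p ∈ l', p ∈ l) →
          ∃ s : ℕ ⊕ ℕ → F, eval (G n id (b + h * Rn k b 1) s) (lgpol l') ≠ 0 := by
        intro l'
        induction l' with
        | nil =>
          intro _
          exact ⟨fun _ => 0, by simp [lgpol]⟩
        | cons p l' ihl =>
          intro hp
          have h2 := gpol_hit ih p.2 (hlad p (hp p List.mem_cons_self))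
            (hllv p (hp p List.mem_cons_self))
          have h3 := ihl fun p' hp' => hp p' (List.mem_cons_of_mem _ hp')
          have h4 : lgpol (p :: l') = p.2.gpol * lgpol l' := by
            unfold lgpol
            rw [List.map_cons, List.prod_cons]
          rw [h4]
          exact exists_mul h2 h3
      obtain ⟨s, hs⟩ := h1 l fun p hp => hp
      exact ⟨s, fun p hp => Fm.good_iff.mp (lgpol_iff.mp hs p hp)⟩
    have hval : ∀ x : ℕ → F, lval (fun _ : Unit => l) (X ()) x = eval x D.poly := by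
      intro x
      unfold lval
      rw [eval_X, hl.eval]
    have hex : ∃ x, Md (G n id (b + h * Rn k b 1) s) (Rn k b 1) x ∧ eval x D.poly ≠ 0 := by
      by_contra hcon
      push Not at hcon
      obtain ⟨x0, hx0⟩ := exists_eval_ne hD.nz.ne
      apply hx0
      rw [← hval]
      refine rigid (Pool.Agent.W2helper98.RF.p_sel Pool.Agent.W2helper24.RF.p_cat) (k := k)
        (b := b) (n := n) (ls := fun _ : Unit => l) (fun _ p hp => (hlad p hp).loc)
        (fun _ u => by rw [plug_rdl hl u]; exact hD.rd u)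
        (fun _ p hp => (hlad p hp).vr) (a := G n id (b + h * Rn k b 1) s)
        (fun _ p hp => Fm.good_iff.mpr (hs p hp)) (X ()) (fun x hx => ?_) x0
      rw [hval]
      apply hcon
      rw [Fintype.card_unit] at hx
      exact hx
    obtain ⟨x, hx, hne⟩ := hex
    obtain ⟨s', hs'⟩ := G_add (n := n) (σ := id) (fun l hl => hl)
      (fun l _ l' _ h => h) _ s _ x hx
    refine ⟨s', ?_⟩
    have e : b + (h + 1) * Rn k b 1 = b + h * Rn k b 1 + Rn k b 1 := by ring
    rw [e, D.eval_congr (x' := x) fun u hu => hs' u (hD.vr u hu)]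
    exact hne

/-- **The generator hits functions of bounded-read formulas.** -/
theorem gen_hits_rf [CharZero F] {τ : Type} [Fintype τ] [DecidableEq τ] {k b n h : ℕ}
    {D : τ → Fm F} (hD : ∀ t, Ad k b n (D t)) (hst : ∀ t, (D t).st ≤ h) (Ψ : MvPolynomial τ F)
    {x0 : ℕ → F} (hx0 : eval (fun t => eval x0 (D t).poly) Ψ ≠ 0) :
    ∃ s : ℕ ⊕ ℕ → F, eval (fun t => eval (G n id (b + (h + 1) * Rn k b 1 +
      Rn k b (Fintype.card τ)) s) (D t).poly) Ψ ≠ 0 := by
  obtain ⟨s, hs⟩ := IsPF.exists_common (Finset.univ : Finset τ)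
    (f := fun t (s : ℕ ⊕ ℕ → F) => eval (G n id (b + (h + 1) * Rn k b 1) s) (D t).gpol)
    (fun t _ => gen_PF n _ _)
    (fun t _ => gpol_hit (level (h + 1)) (D t) (hD t) (Or.inl (Nat.lt_succ_of_le (hst t))))
  have hval : ∀ x : ℕ → F, lval (fun t => [(false, D t)]) Ψ x =
      eval (fun t => eval x (D t).poly) Ψ := by
    intro x
    unfold lval
    congr 2
    funext t
    rw [(Plug.nil (D t)).eval]
  have hex : ∃ x, Md (G n id (b + (h + 1) * Rn k b 1) s) (Rn k b (Fintype.card τ)) x ∧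
      eval (fun t => eval x (D t).poly) Ψ ≠ 0 := by
    by_contra hcon
    push Not at hcon
    apply hx0
    rw [← hval]
    refine rigid (Pool.Agent.W2helper98.RF.p_sel Pool.Agent.W2helper24.RF.p_cat) (k := k)
      (b := b) (n := n) (ls := fun t => [(false, D t)]) (fun t p hp => ?_)
      (fun t u => ?_) (fun t p hp => ?_) (a := G n id (b + (h + 1) * Rn k b 1) s)
      (fun t p hp => ?_) Ψ (fun x hx => ?_) x0
    · exact plug_loc (Plug.nil (D t)) (hD t).loc p hp
    · rw [plug_rdl (Plug.nil (D t)) u]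
      exact (hD t).rd u
    · exact ((hD t).plug (Plug.nil (D t)) p hp).vr
    · rw [List.mem_singleton] at hp
      rw [hp]
      exact Fm.good_iff.mpr (hs t (Finset.mem_univ t))
    · rw [hval]
      exact hcon x hx
  obtain ⟨x, hx, hne⟩ := hex
  obtain ⟨s', hs'⟩ := G_add (n := n) (σ := id) (fun l hl => hl)
    (fun l _ l' _ h => h) _ s _ x hx
  refine ⟨s', ?_⟩
  have e : (fun t => eval (G n id (b + (h + 1) * Rn k b 1 + Rn k b (Fintype.card τ)) s')
      (D t).poly) = fun t => eval x (D t).poly := by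
    funext t
    exact (D t).eval_congr fun u hu => hs' u ((hD t).vr u hu)
  rw [e]
  exact hne

end Pool.Agent.W2helper21.RF
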