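import Pool.Agent.W2helper21.RF.Base
import Pool.Agent.W2helper21.LP.Poly

/-!
# Polynomials computed by bounded-read formulas
-/

namespace Pool.Agent.W2helper21.RF

open MvPolynomial Pool.Agent.W2helper94.PIT
open Pool.Agent.W2helper21.ROT (trdeg_reduce')
open Pool.Agent.W2helper21.FRO (TrdegLE genPoly eval_genPoly prod_erase_eq)

variable {K : Type*} [Field K]

theorem cmb {a b a' b' : Prop} [Decidable a] [Decidable b] [Decidable a'] [Decidable b']
    {s t s' t' : ℕ} (ha : a → a') (hb : b → b') (hs : s' ≤ s)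
    (ht : t' ≤ t) (hb0 : b' → t' = 0) :
    (if a' then t' else if b' then s' else if s' = t' then s' + 1 else max s' t') ≤
      if a then t else if b then s else if s = t then s + 1 else max s t := by
  by_cases h1 : a
  · rw [if_pos h1, if_pos (ha h1)]
    exact ht
  · rw [if_neg h1]
    by_cases h2 : b
    · rw [if_pos h2]
      by_cases h3 : a'
      · rw [if_pos h3, hb0 (hb h2)]
        exact Nat.zero_le _
      · rw [if_neg h3, if_pos (hb h2)]
        exact hs
    · rw [if_neg h2]
      have key : max s t ≤ if s = t then s + 1 else max s t := by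
        split_ifs with h
        · omega
        · exact le_rfl
      by_cases h3 : a'
      · rw [if_pos h3]
        omega
      · rw [if_neg h3]
        by_cases h4 : b'
        · rw [if_pos h4]
          omega
        · rw [if_neg h4]
          split_ifs <;> omega

/-- zero subformulas can be removed -/
theorem red : ∀ D : Fm K, D.poly ≠ 0 → ∃ D' : Fm K, D'.poly = D.poly ∧ D'.NZ ∧
    D'.vars ⊆ D.vars ∧ (∀ u, D'.rdc u ≤ D.rdc u) ∧ (∀ b, D.Loc b → D'.Loc b) ∧
    D'.st ≤ D.st := by
  intro D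
  induction D with
  | leaf p =>
    intro h
    exact ⟨Fm.leaf p, rfl, h, Finset.Subset.refl _, fun u => le_rfl, fun b h => h, le_rfl⟩
  | add f g hf hg =>
    intro h
    have h' : f.poly + g.poly ≠ 0 := h
    by_cases hf0 : f.poly = 0
    · have hg0 : g.poly ≠ 0 := by
        intro hg0
        rw [hf0, hg0, add_zero] at h'
        exact h' rfl
      obtain ⟨D', h1, h2, h3, h4, h5, h6⟩ := hg hg0
      refine ⟨D', ?_, h2, h3.trans Finset.subset_union_right,
        fun u => (h4 u).trans (Nat.le_add_left _ _), fun b hb => h5 b hb.2,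
        h6.trans (st_add f g).2⟩
      rw [h1]
      simp only [Fm.poly, hf0, zero_add]
    · by_cases hg0 : g.poly = 0
      · obtain ⟨D', h1, h2, h3, h4, h5, h6⟩ := hf hf0
        refine ⟨D', ?_, h2, h3.trans Finset.subset_union_left,
          fun u => (h4 u).trans (Nat.le_add_right _ _), fun b hb => h5 b hb.1,
          h6.trans (st_add f g).1⟩
        rw [h1]
        simp only [Fm.poly, hg0, add_zero]
      · obtain ⟨D1, h1, h2, h3, h4, h5, h6⟩ := hf hf0
        obtain ⟨D2, k1, k2, k3, k4, k5, k6⟩ := hg hg0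
        refine ⟨Fm.add D1 D2, ?_, ⟨h2, k2, ?_⟩, Finset.union_subset_union h3 k3,
          fun u => Nat.add_le_add (h4 u) (k4 u), fun b hb => ⟨h5 b hb.1, k5 b hb.2⟩, ?_⟩
        · simp only [Fm.poly, h1, k1]
        · rw [h1, k1]
          exact h'
        · rw [Fm.st, Fm.st]
          exact cmb (fun h : f.vars = ∅ => Finset.subset_empty.mp (h ▸ h3))
            (fun h : g.vars = ∅ => Finset.subset_empty.mp (h ▸ k3)) h6 k6 Fm.st_zero
  | mul f g hf hg =>
    intro h
    have h' : f.poly * g.poly ≠ 0 := h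
    obtain ⟨D1, h1, h2, h3, h4, h5, h6⟩ := hf (left_ne_zero_of_mul h')
    obtain ⟨D2, k1, k2, k3, k4, k5, k6⟩ := hg (right_ne_zero_of_mul h')
    refine ⟨Fm.mul D1 D2, ?_, ⟨h2, k2⟩, Finset.union_subset_union h3 k3,
      fun u => Nat.add_le_add (h4 u) (k4 u), fun b hb => ⟨h5 b hb.1, k5 b hb.2⟩, ?_⟩
    · simp only [Fm.poly, h1, k1]
    · rw [Fm.st, Fm.st]
      exact cmb (fun h : f.vars = ∅ => Finset.subset_empty.mp (h ▸ h3))
        (fun h : g.vars = ∅ => Finset.subset_empty.mp (h ▸ k3)) h6 k6 Fm.st_zero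

/-- `p` is computed by a formula with reads at most `k`, locality `b`, Strahler number at most
`h` -/
def Cmp (k b h : ℕ) {n : ℕ} (p : MvPolynomial (Fin n) K) : Prop :=
  ∃ D : Fm K, D.poly = rename Fin.val p ∧ D.Loc b ∧ (∀ u, D.rdc u ≤ k) ∧
    (∀ u ∈ D.vars, u < n) ∧ D.st ≤ h

/-- the number of copies of the basic generator -/
def fSeeds (k b T h : ℕ) : ℕ := b + (h + 1) * Rn k b 1 + Rn k b T

theorem leaf_one_ad (k b n : ℕ) : Ad k b n (Fm.leaf (1 : MvPolynomial ℕ K)) where
  nz := one_ne_zero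
  loc := by
    show (1 : MvPolynomial ℕ K).vars.card ≤ b
    rw [vars_one, Finset.card_empty]
    exact Nat.zero_le _
  rd := fun u => by
    rw [Fm.rdc, vars_one, if_neg (Finset.notMem_empty u)]
    exact Nat.zero_le _
  vr := fun u hu => by
    have hu' : u ∈ (1 : MvPolynomial ℕ K).vars := hu
    rw [vars_one] at hu'
    exact absurd hu' (Finset.notMem_empty u)

theorem eval_ren {n : ℕ} (p : MvPolynomial (Fin n) K) (x : ℕ → K) :
    eval x (rename Fin.val p) = eval (fun l : Fin n => x l) p := by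
  rw [eval_rename]
  rfl

/-- the generator does not kill a nonzero function of polynomials computed by formulas -/
theorem bind_ne_zero_fun [CharZero K] {n k b h T : ℕ} {p : Fin T → MvPolynomial (Fin n) K}
    (hp : ∀ i, Cmp k b h (p i)) (Ψ : MvPolynomial (Fin T) K)
    (h0 : bind₁ p Ψ ≠ 0) : bind₁ (genPoly K n (fSeeds k b T h)) (bind₁ p Ψ) ≠ 0 := by
  classical
  have : Infinite K := inferInstance
  have hD : ∀ i, ∃ D : Fm K, Ad k b n D ∧ D.st ≤ h ∧
      (p i ≠ 0 → D.poly = rename Fin.val (p i)) := by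
    intro i
    obtain ⟨D, h1, h2, h3, h4, h5⟩ := hp i
    by_cases hpi : p i = 0
    · exact ⟨Fm.leaf 1, leaf_one_ad k b n, Nat.zero_le _, fun h => absurd hpi h⟩
    · have hne : D.poly ≠ 0 := by
        rw [h1]
        intro hcon
        exact hpi ((rename_injective _ Fin.val_injective) (hcon.trans (map_zero _).symm))
      obtain ⟨D', k1, k2, k3, k4, k5, k6⟩ := red D hne
      exact ⟨D', ⟨k2, k5 b h2, fun u => (k4 u).trans (h3 u), fun u hu => h4 u (k3 hu)⟩,
        k6.trans h5, fun _ => k1.trans h1⟩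
  choose D hDa hDs hDp using hD
  let Ψ' : MvPolynomial (Fin T) K := bind₁ (fun i => if p i = 0 then 0 else X i) Ψ
  have heval : ∀ x' : ℕ → K, eval (fun t => eval x' (D t).poly) Ψ' =
      eval (fun l : Fin n => x' l) (bind₁ p Ψ) := by
    intro x'
    rw [Pool.Agent.W2helper21.ROT.eval_bind, Pool.Agent.W2helper21.ROT.eval_bind]
    congr 2
    funext i
    by_cases hpi : p i = 0
    · rw [if_pos hpi, hpi, map_zero, map_zero]
    · rw [if_neg hpi, eval_X, hDp i hpi, eval_ren]
  have hex : ∃ x : Fin n → K, eval x (bind₁ p Ψ) ≠ 0 := by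
    by_contra hcon
    push Not at hcon
    exact h0 (MvPolynomial.funext fun x => by rw [hcon x, map_zero])
  obtain ⟨x, hx⟩ := hex
  let x0 : ℕ → K := fun l => if h : l < n then x ⟨l, h⟩ else 0
  have hx0 : (fun l : Fin n => x0 l) = x := by
    funext l
    simp [x0]
  rw [← hx0, ← heval] at hx
  obtain ⟨s, hs⟩ := gen_hits_rf hDa hDs Ψ' hx
  rw [Fintype.card_fin, heval] at hs
  intro hcon
  let s' : Fin (fSeeds k b T h) ⊕ Fin (fSeeds k b T h) → K :=
    Sum.elim (fun t => s (Sum.inl t)) (fun t => s (Sum.inr t))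
  have h1 := eval_genPoly (q := fSeeds k b T h) (bind₁ p Ψ) s'
  rw [hcon, map_zero] at h1
  apply hs
  rw [h1]
  congr 2
  funext l
  show G n id (fSeeds k b T h) s (l : ℕ) = _
  unfold G
  rw [Finset.sum_range]
  refine Finset.sum_congr rfl fun t _ => ?_
  rw [id, ← prod_erase_eq]
  rfl

/-- the same for many polynomials of bounded transcendence degree -/
theorem bind_ne_zero_trdeg [CharZero K] {n k b h s T : ℕ} {p : Fin s → MvPolynomial (Fin n) K}
    (hp : ∀ i, Cmp k b h (p i)) (hT : TrdegLE T p) (Ψ : MvPolynomial (Fin s) K)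
    (h0 : bind₁ p Ψ ≠ 0) : bind₁ (genPoly K n (fSeeds k b T h)) (bind₁ p Ψ) ≠ 0 := by
  rcases Nat.eq_zero_or_pos s with rfl | hs
  · obtain ⟨c, rfl⟩ := C_surjective (Fin 0) Ψ
    rw [bind₁_C_right] at h0 ⊢
    rw [bind₁_C_right]
    intro h1
    apply h0
    have := C_injective _ _ (h1.trans (map_zero C).symm)
    rw [this, map_zero]
  · obtain ⟨e, Q, hQ, hdvd⟩ := trdeg_reduce' hs p hT Ψ h0
    have h1 := bind_ne_zero_fun (fun t => hp (e t)) Q hQ
    obtain ⟨R, hR⟩ := hdvd
    intro hcon
    apply h1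
    rw [hR, map_mul, hcon, zero_mul]

/-- the Strahler number of a bounded-read formula is logarithmic -/
theorem st_log {D : Fm K} {n k : ℕ} (hn : ∀ u ∈ D.vars, u < n) (hk : ∀ u, D.rdc u ≤ k) :
    D.st ≤ Nat.log 2 (n * k) := by
  by_cases hv : D.vars = ∅
  · rw [Fm.st_zero hv]
    exact Nat.zero_le _
  · have h1 := Pool.Agent.W2helper15.RF.p_str K D hv
    have h2 := h1.1.trans (h1.2 n k hn hk)
    exact Nat.le_log_of_pow_le (by norm_num) h2

end Pool.Agent.W2helper21.RF
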