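import Pool.Agent.W2helper21.RF.Rg

/-!
# Formulas restricted to a structured set of variables are functionals of chains
-/

namespace Pool.Agent.W2helper21.RF

open Matrix MvPolynomial Pool.Agent.W2helper94.PIT Pool.Agent.W2helper21.FRO
open Pool.Agent.W2helper21.RK (Cd Reg rep)

variable {F : Type*} [Field F]

theorem Fm.eval_congr : ∀ (D : Fm F) {x x' : ℕ → F}, (∀ u ∈ D.vars, x u = x' u) →
    eval x D.poly = eval x' D.poly := by
  intro D
  induction D with
  | leaf p =>
    intro x x' h
    exact eval₂Hom_congr' rfl (fun i hi _ => h i hi) rfl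
  | add f g ihf ihg =>
    intro x x' h
    simp only [Fm.poly, map_add]
    rw [ihf fun u hu => h u (Finset.mem_union_left _ hu),
      ihg fun u hu => h u (Finset.mem_union_right _ hu)]
  | mul f g ihf ihg =>
    intro x x' h
    simp only [Fm.poly, map_mul]
    rw [ihf fun u hu => h u (Finset.mem_union_left _ hu),
      ihg fun u hu => h u (Finset.mem_union_right _ hu)]

theorem Fm.Good.ne : ∀ {D : Fm F} {x : ℕ → F}, D.Good x → eval x D.poly ≠ 0 := by
  intro D
  induction D with
  | leaf p => exact fun h => h
  | add f g _ _ => exact fun h => h.2.2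
  | mul f g ihf ihg =>
    intro x h
    simp only [Fm.poly, map_mul]
    exact mul_ne_zero (ihf h.1) (ihg h.2)

theorem Fm.Good.congr : ∀ {D : Fm F} {x x' : ℕ → F}, (∀ u ∈ D.vars, x u = x' u) → D.Good x →
    D.Good x' := by
  intro D
  induction D with
  | leaf p =>
    intro x x' h hg
    have h1 := Fm.eval_congr (Fm.leaf p) h
    show eval x' p ≠ 0
    have h2 : eval x p = eval x' p := h1
    rw [← h2]
    exact hg
  | add f g ihf ihg =>
    intro x x' h hg
    refine ⟨ihf (fun u hu => h u (Finset.mem_union_left _ hu)) hg.1,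
      ihg (fun u hu => h u (Finset.mem_union_right _ hu)) hg.2.1, ?_⟩
    have h1 : eval x (f.poly + g.poly) = eval x' (f.poly + g.poly) :=
      Fm.eval_congr (Fm.add f g) h
    rw [← h1]
    exact hg.2.2
  | mul f g ihf ihg =>
    intro x x' h hg
    exact ⟨ihf (fun u hu => h u (Finset.mem_union_left _ hu)) hg.1,
      ihg (fun u hu => h u (Finset.mem_union_right _ hu)) hg.2⟩

theorem mat_congr {p : Bool × Fm F} {x x' : ℕ → F} (h : ∀ u ∈ p.2.vars, x u = x' u) :
    mat p x = mat p x' := by
  unfold mat
  rw [p.2.eval_congr h]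

theorem mat_MPF (p : Bool × Fm F) : MPF (mat p) := by
  intro a b
  have h0 : IsPF (fun x : ℕ → F => eval x p.2.poly) := ⟨p.2.poly, fun _ => rfl⟩
  unfold mat
  cases p.1 with
  | true =>
    simp only [if_true]
    fin_cases a <;> fin_cases b
    · exact h0
    · exact IsPF.const 0
    · exact IsPF.const 0
    · exact IsPF.const 1
  | false =>
    simp only [Bool.false_eq_true, if_false]
    fin_cases a <;> fin_cases b
    · exact IsPF.const 1
    · exact h0
    · exact IsPF.const 0
    · exact IsPF.const 1

theorem det_mat {p : Bool × Fm F} {x : ℕ → F} (h : eval x p.2.poly ≠ 0) : (mat p x).det ≠ 0 := by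
  unfold mat
  cases p.1 with
  | true => simpa [Matrix.det_fin_two] using h
  | false => simp [Matrix.det_fin_two]

theorem W_bot (l : List (Bool × Fm F)) (x : ℕ → F) : W l x 1 0 = 0 ∧ W l x 1 1 = 1 := by
  unfold W
  induction l with
  | nil => simp
  | cons p l ih =>
    rw [List.map_cons, List.prod_cons]
    simp only [Matrix.mul_apply, Fin.sum_univ_two, ih.1, ih.2]
    unfold mat
    cases p.1 <;> simp

theorem W_append (l l' : List (Bool × Fm F)) (x : ℕ → F) : W (l ++ l') x = W l x * W l' x := by
  unfold W
  rw [List.map_append, List.prod_append]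

theorem W_cons (p : Bool × Fm F) (l : List (Bool × Fm F)) (x : ℕ → F) :
    W (p :: l) x = mat p x * W l x := by
  unfold W
  rw [List.map_cons, List.prod_cons]

theorem Plug.eval {D : Fm F} {l : List (Bool × Fm F)} (h : Plug D l) (x : ℕ → F) :
    W l x 0 1 = MvPolynomial.eval x D.poly := by
  induction h with
  | nil D =>
    unfold W mat
    simp
  | @addL f g l h ih =>
    rw [W_cons, Matrix.mul_apply, Fin.sum_univ_two, ih, (W_bot l x).2]
    unfold mat
    simp [Fm.poly]
  | @addR f g l h ih =>
    rw [W_cons, Matrix.mul_apply, Fin.sum_univ_two, ih, (W_bot l x).2]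
    unfold mat
    simp [Fm.poly, add_comm]
  | @mulL f g l h ih =>
    rw [W_cons, Matrix.mul_apply, Fin.sum_univ_two, ih, (W_bot l x).2]
    unfold mat
    simp [Fm.poly, mul_comm]
  | @mulR f g l h ih =>
    rw [W_cons, Matrix.mul_apply, Fin.sum_univ_two, ih, (W_bot l x).2]
    unfold mat
    simp [Fm.poly]

theorem Plug.good {D : Fm F} {l : List (Bool × Fm F)} (h : Plug D l) {x : ℕ → F}
    (hD : D.Good x) : ∀ p ∈ l, p.2.Good x := by
  induction h with
  | nil D =>
    intro p hp
    rw [List.mem_singleton] at hp
    rw [hp]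
    exact hD
  | addL h ih =>
    intro p hp
    rw [List.mem_cons] at hp
    rcases hp with rfl | hp
    · exact hD.2.1
    · exact ih hD.1 p hp
  | addR h ih =>
    intro p hp
    rw [List.mem_cons] at hp
    rcases hp with rfl | hp
    · exact hD.1
    · exact ih hD.2.1 p hp
  | mulL h ih =>
    intro p hp
    rw [List.mem_cons] at hp
    rcases hp with rfl | hp
    · exact hD.2
    · exact ih hD.1 p hp
  | mulR h ih =>
    intro p hp
    rw [List.mem_cons] at hp
    rcases hp with rfl | hp
    · exact hD.1
    · exact ih hD.2 p hp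

/-- the sizes of the chains -/
def Cz (k : ℕ) : ℕ → ℕ
  | 0 => Cd 2 k
  | n + 1 => 4 * (Cz k n * Cz k n * Cz k n) + 1

theorem Cd_pos {w : ℕ} (hw : 0 < w) (k : ℕ) : 0 < Cd w k := by
  induction k with
  | zero => exact hw
  | succ k ih => exact Nat.mul_pos (Nat.mul_pos ih ih) hw

theorem Cz_pos (k n : ℕ) : 0 < Cz k n := by
  cases n with
  | zero => exact Cd_pos (by norm_num) k
  | succ n => exact Nat.succ_pos _

theorem Cz_succ (k n : ℕ) : Cz k n ≤ Cz k (n + 1) := by
  have h := Cz_pos k n
  show Cz k n ≤ 4 * (Cz k n * Cz k n * Cz k n) + 1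
  nlinarith [Nat.mul_le_mul h h]

theorem Cz_base (k : ℕ) : ∀ n, Cd 2 k ≤ Cz k n := by
  intro n
  induction n with
  | zero => exact le_rfl
  | succ n ih => exact ih.trans (Cz_succ k n)

theorem rank_eq_two {A : Matrix (Fin 2) (Fin 2) F} (h : A.det ≠ 0) : A.rank = 2 := by
  rw [Matrix.rank_of_isUnit A ((Matrix.isUnit_iff_isUnit_det A).mpr h.isUnit), Fintype.card_fin]

/-- **Structured lists are functionals of chains.** -/
theorem nc_rg {J : Finset ℕ} {k n : ℕ} {l : List (Bool × Fm F)} (h : Nc J k n l) {L : ℕ}
    (hL : 0 < L) {e : ℕ → ℕ} {z a : ℕ → F} {pt : (ℕ → F) → ℕ → F}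
    (hpt1 : ∀ ξ, ∀ l < L, pt ξ (e l) = ξ l)
    (hpt2 : ∀ ξ u, (∀ l < L, e l ≠ u) → pt ξ u = z u)
    (heJ : ∀ l < L, e l ∈ J)
    (hemono : ∀ l l', l < l' → l' < L → e l < e l') :
    (∀ p ∈ l, p.2.Good (pt a)) → ∀ α β, Rg L a (Cz k n) (fun ξ => W l (pt ξ) α β) := by
  classical
  induction h with
  | flat n l v h hr =>
    intro hgood α β
    let M : ℕ → F → Matrix (Fin 2) (Fin 2) F := fun q s =>
      if hq : q < l.length then mat (l[q]) (Function.update z (v q) s) else 1
    have hpoly : ∀ q, ∀ a b, ∃ p : Polynomial F, ∀ t, p.eval t = M q t a b := by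
      intro q a' b'
      by_cases hq : q < l.length
      · simp only [M, dif_pos hq]
        apply unit_poly
        have := (mat_MPF (l[q])).comp (κ := Unit)
          (g := fun x => Function.update z (v q) (x ())) (fun u => by
            by_cases hu : u = v q
            · subst hu
              simp only [Function.update_self]
              exact IsPF.coord _
            · simp only [Function.update_of_ne hu]
              exact IsPF.const _)
        exact this a' b'
      · simp only [M, dif_neg hq]
        exact ⟨Polynomial.C ((1 : Matrix (Fin 2) (Fin 2) F) a' b'), fun t => by simp⟩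
    have hM : ∀ ξ q (hq : q < l.length), mat (l[q]) (pt ξ) = M q (pt ξ (v q)) := by
      intro ξ q hq
      simp only [M, dif_pos hq]
      apply mat_congr
      intro u hu
      by_cases huv : u = v q
      · rw [← huv, Function.update_self]
      · rw [Function.update_of_ne huv]
        apply hpt2
        rintro l' hl' rfl
        exact huv (h q hq _ (heJ l' hl') hu).symm
    have hW : ∀ ξ, W l (pt ξ) = cp M (fun r => pt ξ (v r)) 0 l.length := by
      intro ξ
      unfold W cp
      congr 1
      rw [List.Ico.zero_bot]
      apply List.ext_getElem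
      · simp
      · intro q h3 h4
        have hq : q < l.length := by simpa using h3
        simp only [List.getElem_map, List.getElem_range]
        exact hM ξ q hq
    have hdet : ∀ p q, q ≤ l.length → (cp M (fun r => pt a (v r)) p q).det ≠ 0 := by
      intro p q hq
      unfold cp
      have : ∀ A : List ℕ, (∀ r ∈ A, r < l.length) →
          ((A.map fun r => M r (pt a (v r))).prod).det ≠ 0 := by
        intro A
        induction A with
        | nil => simp
        | cons r A ih =>
          intro hA
          rw [List.map_cons, List.prod_cons, Matrix.det_mul]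
          have hr' : r < l.length := hA r List.mem_cons_self
          refine mul_ne_zero ?_ (ih fun r' hr' => hA r' (List.mem_cons_of_mem _ hr'))
          rw [← hM a r hr']
          exact det_mat (hgood _ (List.getElem_mem hr')).ne
      apply this
      intro r hr'
      rw [List.Ico.mem] at hr'
      omega
    have hRp := (rep (M := M) (v := v) (e := e) (L := L) (z := z) (pt := pt) (J := J) (a := a)
      hpoly hL hpt1 hpt2 heJ hemono hr (by
        intro p q _ _ h3 x
        rw [rank_eq_two (hdet p q h3)]
        exact Matrix.rank_le_card_width _)).2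
    rw [Fintype.card_fin] at hRp
    have h5 := (Rp.rg hRp α β).mono (Cz_base k n)
    have h6 : (fun ξ => W l (pt ξ) α β) =
        fun ξ => cp M (fun r => pt ξ (v r)) 0 l.length α β := by
      funext ξ
      rw [hW]
    rw [h6]
    exact h5
  | split n l1 l2 l' b D hP h1 h' h2 ih1 ih' ih2 =>
    intro hgood α β
    have g1 := ih1 (fun p hp => hgood p (List.mem_append_left _ hp))
    have g2 := ih2 (fun p hp => hgood p (List.mem_append_right _ (List.mem_cons_of_mem _ hp)))
    have gD : D.Good (pt a) := hgood (b, D) (List.mem_append_right _ List.mem_cons_self)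
    have g' := ih' (hP.good gD) 0 1
    have hmat : ∀ γ δ, Rg L a (Cz k n) (fun ξ => mat (b, D) (pt ξ) γ δ) := by
      intro γ δ
      have hD : Rg L a (Cz k n) (fun ξ => MvPolynomial.eval (pt ξ) D.poly) := by
        have : (fun ξ => MvPolynomial.eval (pt ξ) D.poly) = fun ξ => W l' (pt ξ) 0 1 := by
          funext ξ
          rw [hP.eval]
        rw [this]
        exact g'
      have hc : ∀ t : F, Rg L a (Cz k n) (fun _ => t) := fun t =>
        (Rg.const L a t).mono (Cz_pos k n)
      unfold mat
      cases b with
      | true =>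
        simp only [if_true]
        fin_cases γ <;> fin_cases δ
        · exact hD
        · exact hc 0
        · exact hc 0
        · exact hc 1
      | false =>
        simp only [Bool.false_eq_true, if_false]
        fin_cases γ <;> fin_cases δ
        · exact hc 1
        · exact hD
        · exact hc 0
        · exact hc 1
    have hterm : ∀ t ∈ (Finset.univ : Finset (Fin 2 × Fin 2)),
        Rg L a (Cz k n * Cz k n * Cz k n)
          (fun ξ => W l1 (pt ξ) α t.1 * mat (b, D) (pt ξ) t.1 t.2 * W l2 (pt ξ) t.2 β) :=
      fun t _ => ((g1 α t.1).mul (hmat t.1 t.2)).mul (g2 t.2 β)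
    have hsum := Rg.sum (Finset.univ : Finset (Fin 2 × Fin 2)) hterm
    have hcard : (Finset.univ : Finset (Fin 2 × Fin 2)).card = 4 := by simp
    rw [hcard] at hsum
    have h6 : (fun ξ => W (l1 ++ (b, D) :: l2) (pt ξ) α β) =
        fun ξ => ∑ t : Fin 2 × Fin 2,
          W l1 (pt ξ) α t.1 * mat (b, D) (pt ξ) t.1 t.2 * W l2 (pt ξ) t.2 β := by
      funext ξ
      rw [W_append, W_cons, ← Matrix.mul_assoc, Matrix.mul_apply, Fintype.sum_prod_type,
        Finset.sum_comm]
      refine Finset.sum_congr rfl fun δ _ => ?_
      rw [Matrix.mul_apply, Finset.sum_mul]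
    rw [h6]
    exact hsum

end Pool.Agent.W2helper21.RF
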