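import Pool.Agent.W2helper21.RF.Stm

/-!
# Functionals of chains form an algebra
-/

namespace Pool.Agent.W2helper21.RF

open Matrix Pool.Agent.W2helper94.PIT Pool.Agent.W2helper21.FRO Pool.Agent.W2helper21.RK
open scoped Kronecker

variable {F : Type*} [Field F]

/-- `f` is a functional of a chain of length `L` and size at most `c` whose ranks are maximal
at `a` -/
def Rg (L : ℕ) (a : ℕ → F) (c : ℕ) (f : (ℕ → F) → F) : Prop :=
  ∃ (ν : Type) (_ : Fintype ν) (_ : DecidableEq ν) (C : ℕ → F → Matrix ν ν F),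
    Fintype.card ν ≤ c ∧ (∀ l, ∀ a b, ∃ p : Polynomial F, ∀ t, p.eval t = C l t a b) ∧
    (∀ i j, i < j → j ≤ L → ∀ x, (cp C x i j).rank ≤ (cp C a i j).rank) ∧
    ∃ y w : ν → F, ∀ ξ, f ξ = y ⬝ᵥ (cp C ξ 0 L *ᵥ w)

theorem Rg.mono {L : ℕ} {a : ℕ → F} {c c' : ℕ} {f : (ℕ → F) → F} (h : Rg L a c f)
    (hc : c ≤ c') : Rg L a c' f := by
  obtain ⟨ν, h1, h2, C, hC, h3⟩ := h
  exact ⟨ν, h1, h2, C, hC.trans hc, h3⟩

theorem Rp.rg {L : ℕ} {a : ℕ → F} {c : ℕ} {m : Type} [Fintype m] [DecidableEq m]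
    {V : (ℕ → F) → Matrix m m F} (h : Rp L a c V) (α β : m) : Rg L a c (fun ξ => V ξ α β) := by
  obtain ⟨ν, h1, h2, C, hC, h3, h4, h5⟩ := h
  exact ⟨ν, h1, h2, C, hC.le, h3, h4, h5 α β⟩

theorem Rg.const (L : ℕ) (a : ℕ → F) (t : F) : Rg L a 1 (fun _ => t) := by
  have hcp : ∀ (x : ℕ → F) i j, cp (fun _ _ => (1 : Matrix Unit Unit F)) x i j = 1 := by
    intro x i j
    unfold cp
    simp
  refine ⟨Unit, inferInstance, inferInstance, fun _ _ => 1, by simp, ?_, ?_, fun _ => t,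
    fun _ => 1, ?_⟩
  · intro l a b
    exact ⟨1, fun t => by simp⟩
  · intro i j _ _ x
    rw [hcp, hcp]
  · intro ξ
    rw [hcp]
    simp [dotProduct]

theorem rank_fromBlocks_le {ν ν' : Type} [Fintype ν] [DecidableEq ν] [Fintype ν'] [DecidableEq ν']
    {A A' : Matrix ν ν F} {B B' : Matrix ν' ν' F} (h1 : A.rank ≤ A'.rank)
    (h2 : B.rank ≤ B'.rank) :
    (fromBlocks A 0 0 B).rank ≤ (fromBlocks A' 0 0 B').rank := by
  obtain ⟨X, Y, hXY⟩ := factor_of_rank_le h1
  obtain ⟨X', Y', hXY'⟩ := factor_of_rank_le h2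
  have : fromBlocks A 0 0 B = fromBlocks X 0 0 X' * fromBlocks A' 0 0 B' * fromBlocks Y 0 0 Y' := by
    rw [fromBlocks_multiply, fromBlocks_multiply, hXY, hXY']
    simp
  rw [this]
  exact (Matrix.rank_mul_le_left _ _).trans (Matrix.rank_mul_le_right _ _)

theorem cp_fromBlocks {ν ν' : Type} [Fintype ν] [DecidableEq ν] [Fintype ν'] [DecidableEq ν']
    (C : ℕ → F → Matrix ν ν F) (D : ℕ → F → Matrix ν' ν' F) (x : ℕ → F) (i j : ℕ) :
    cp (fun l s => fromBlocks (C l s) 0 0 (D l s)) x i j =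
      fromBlocks (cp C x i j) 0 0 (cp D x i j) := by
  unfold cp
  induction List.Ico i j with
  | nil =>
    simp only [List.map_nil, List.prod_nil]
    exact fromBlocks_one.symm
  | cons l A ih =>
    simp only [List.map_cons, List.prod_cons, ih]
    rw [fromBlocks_multiply]
    simp

theorem Rg.add {L : ℕ} {a : ℕ → F} {c c' : ℕ} {f f' : (ℕ → F) → F} (h : Rg L a c f)
    (h' : Rg L a c' f') : Rg L a (c + c') (fun ξ => f ξ + f' ξ) := by
  obtain ⟨ν, hν1, hν2, C, hc, hpoly, hrank, y, w, hf⟩ := h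
  obtain ⟨ν', hν1', hν2', C', hc', hpoly', hrank', y', w', hf'⟩ := h'
  refine ⟨ν ⊕ ν', inferInstance, inferInstance, fun l s => fromBlocks (C l s) 0 0 (C' l s), ?_, ?_,
    ?_, Sum.elim y y', Sum.elim w w', ?_⟩
  · rw [Fintype.card_sum]
    exact Nat.add_le_add hc hc'
  · rintro l (a | a) (b | b)
    · exact hpoly l a b
    · exact ⟨0, fun t => by simp⟩
    · exact ⟨0, fun t => by simp⟩
    · exact hpoly' l a b
  · intro i j hij hj x
    rw [cp_fromBlocks, cp_fromBlocks]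
    exact rank_fromBlocks_le (hrank i j hij hj x) (hrank' i j hij hj x)
  · intro ξ
    show f ξ + f' ξ = _
    rw [cp_fromBlocks, hf, hf']
    simp only [Matrix.mulVec, dotProduct, Fintype.sum_sum_type, Sum.elim_inl, Sum.elim_inr,
      fromBlocks_apply₁₁, fromBlocks_apply₁₂, fromBlocks_apply₂₁, fromBlocks_apply₂₂,
      Matrix.zero_apply, zero_mul, Finset.sum_const_zero, add_zero, zero_add]

theorem Rg.mul {L : ℕ} {a : ℕ → F} {c c' : ℕ} {f f' : (ℕ → F) → F} (h : Rg L a c f)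
    (h' : Rg L a c' f') : Rg L a (c * c') (fun ξ => f ξ * f' ξ) := by
  obtain ⟨ν, hν1, hν2, C, hc, hpoly, hrank, y, w, hf⟩ := h
  obtain ⟨ν', hν1', hν2', C', hc', hpoly', hrank', y', w', hf'⟩ := h'
  refine ⟨ν × ν', inferInstance, inferInstance, fun l s => C l s ⊗ₖ C' l s, ?_, ?_,
    ?_, fun q => y q.1 * y' q.2, fun q => w q.1 * w' q.2, ?_⟩
  · rw [Fintype.card_prod]
    exact Nat.mul_le_mul hc hc'
  · intro l a b
    obtain ⟨p, hp⟩ := hpoly l a.1 b.1
    obtain ⟨p', hp'⟩ := hpoly' l a.2 b.2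
    exact ⟨p * p', fun s => by rw [Polynomial.eval_mul, hp, hp']; rfl⟩
  · intro i j hij hj x
    rw [cp_kron, cp_kron]
    exact rank_kron_le (hrank i j hij hj x) (hrank' i j hij hj x)
  · intro ξ
    show f ξ * f' ξ = _
    rw [cp_kron, hf, hf', dot_kron]

/-- finite sums -/
theorem Rg.sum {L : ℕ} {a : ℕ → F} {c : ℕ} {ι : Type*} (A : Finset ι)
    {f : ι → (ℕ → F) → F} (h : ∀ t ∈ A, Rg L a c (f t)) :
    Rg L a (A.card * c + 1) (fun ξ => ∑ t ∈ A, f t ξ) := by
  classical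
  induction A using Finset.induction_on with
  | empty =>
    simp only [Finset.sum_empty, Finset.card_empty, Nat.zero_mul, Nat.zero_add]
    exact Rg.const L a 0
  | insert t A ht ih =>
    simp only [Finset.sum_insert ht]
    refine ((h t (Finset.mem_insert_self _ _)).add (ih fun t' ht' =>
      h t' (Finset.mem_insert_of_mem ht'))).mono ?_
    rw [Finset.card_insert_of_notMem ht]
    ring_nf
    omega

/-- the index set can be a standard one -/
theorem Rg.fin {L : ℕ} {a : ℕ → F} {c : ℕ} {f : (ℕ → F) → F} (h : Rg L a c f) :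
    ∃ C : ℕ → F → Matrix (Fin c) (Fin c) F,
      (∀ l, ∀ a b, ∃ p : Polynomial F, ∀ t, p.eval t = C l t a b) ∧
      (∀ i j, i < j → j ≤ L → ∀ x, (cp C x i j).rank ≤ (cp C a i j).rank) ∧
      ∃ y w, ∀ ξ, f ξ = y ⬝ᵥ (cp C ξ 0 L *ᵥ w) := by
  obtain ⟨ν, hν1, hν2, C, hc, hpoly, hrank, y, w, hf⟩ := h
  let D : ℕ → F → Matrix (ν ⊕ Fin (c - Fintype.card ν)) (ν ⊕ Fin (c - Fintype.card ν)) F :=
    fun l s => fromBlocks (C l s) 0 0 1
  have hcard : Fintype.card (ν ⊕ Fin (c - Fintype.card ν)) = c := by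
    rw [Fintype.card_sum, Fintype.card_fin]
    omega
  have hcp1 : ∀ (x : ℕ → F) i j,
      cp (fun _ _ => (1 : Matrix (Fin (c - Fintype.card ν)) (Fin (c - Fintype.card ν)) F)) x i j
        = 1 := by
    intro x i j
    unfold cp
    simp
  have hcpD : ∀ x i j, cp D x i j = fromBlocks (cp C x i j) 0 0 1 := by
    intro x i j
    rw [← hcp1 x i j, ← cp_fromBlocks]
  let φ : ν ⊕ Fin (c - Fintype.card ν) ≃ Fin c := Fintype.equivFinOfCardEq hcard
  let E : ℕ → F → Matrix (Fin c) (Fin c) F := fun l s => (D l s).submatrix φ.symm φ.symm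
  have hcp : ∀ x i j, cp E x i j = (cp D x i j).submatrix φ.symm φ.symm := by
    intro x i j
    unfold cp
    induction List.Ico i j with
    | nil =>
      simp only [List.map_nil, List.prod_nil]
      exact (Matrix.submatrix_one_equiv _).symm
    | cons l A ih =>
      simp only [List.map_cons, List.prod_cons, ih]
      exact Matrix.submatrix_mul_equiv _ _ _ _ _
  refine ⟨E, ?_, ?_, fun q => Sum.elim y (fun _ => 0) (φ.symm q),
    fun q => Sum.elim w (fun _ => 0) (φ.symm q), ?_⟩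
  · intro l a b
    show ∃ p : Polynomial F, ∀ t, p.eval t = D l t (φ.symm a) (φ.symm b)
    generalize φ.symm a = a'
    generalize φ.symm b = b'
    rcases a' with a' | a' <;> rcases b' with b' | b'
    · exact hpoly l a' b'
    · exact ⟨0, fun t => by simp [D]⟩
    · exact ⟨0, fun t => by simp [D]⟩
    · exact ⟨Polynomial.C ((1 : Matrix (Fin (c - Fintype.card ν)) _ F) a' b'), fun t => by
        simp [D]⟩
  · intro i j hij hj x
    rw [hcp, hcp, Matrix.rank_submatrix, Matrix.rank_submatrix, hcpD, hcpD]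
    exact rank_fromBlocks_le (hrank i j hij hj x) le_rfl
  · intro ξ
    rw [hf, hcp]
    have h3 : (cp D ξ 0 L).submatrix φ.symm φ.symm *ᵥ
        (fun q => Sum.elim w (fun _ => 0) (φ.symm q)) =
        fun q => (cp D ξ 0 L *ᵥ Sum.elim w (fun _ => 0)) (φ.symm q) := by
      funext q
      simp only [Matrix.mulVec, dotProduct, Matrix.submatrix_apply]
      exact (Equiv.sum_comp φ.symm (fun t => cp D ξ 0 L (φ.symm q) t * Sum.elim w (fun _ => 0) t))
    rw [h3]
    simp only [dotProduct]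
    rw [Equiv.sum_comp φ.symm (fun t => Sum.elim y (fun _ => 0) t *
      (cp D ξ 0 L *ᵥ Sum.elim w (fun _ => 0)) t), hcpD]
    simp only [Matrix.mulVec, dotProduct, Fintype.sum_sum_type, Sum.elim_inl, Sum.elim_inr,
      fromBlocks_apply₁₁, zero_mul, mul_zero, Finset.sum_const_zero, add_zero]

end Pool.Agent.W2helper21.RF
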