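import Pool.Agent.W2helper21.RF.Rep

/-!
# Few modifications suffice for functions of formulas without vanishing subformulas
-/

namespace Pool.Agent.W2helper21.RF

open Matrix MvPolynomial Pool.Agent.W2helper94.PIT Pool.Agent.W2helper21.FRO
open Pool.Agent.W2helper21.RK (Cd Reg rep)

variable {F : Type*} [Field F]

theorem Nc.anti {J J' : Finset ℕ} {k n : ℕ} {l : List (Bool × Fm F)} (h : Nc J k n l)
    (hJ : J' ⊆ J) : Nc J' k n l := by
  induction h with
  | flat n l v h hr => exact Nc.flat n l v (fun q hq u hu => h q hq u (hJ hu)) (hr.mono hJ)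
  | split n l1 l2 l' b D hP _ _ _ ih1 ih' ih2 => exact Nc.split n l1 l2 l' b D hP ih1 ih' ih2

/-- the product of all subformulas -/
noncomputable def Fm.gpol : Fm F → MvPolynomial ℕ F
  | Fm.leaf p => p
  | Fm.add f g => f.gpol * g.gpol * (f.poly + g.poly)
  | Fm.mul f g => f.gpol * g.gpol

theorem Fm.good_iff : ∀ {D : Fm F} {x : ℕ → F}, D.Good x ↔ eval x D.gpol ≠ 0 := by
  intro D
  induction D with
  | leaf p => exact fun {x} => Iff.rfl
  | add f g ihf ihg =>
    intro x
    show f.Good x ∧ g.Good x ∧ eval x (f.poly + g.poly) ≠ 0 ↔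
      eval x (f.gpol * g.gpol * (f.poly + g.poly)) ≠ 0
    rw [map_mul, map_mul, mul_ne_zero_iff, mul_ne_zero_iff, ihf, ihg, and_assoc]
  | mul f g ihf ihg =>
    intro x
    show f.Good x ∧ g.Good x ↔ eval x (f.gpol * g.gpol) ≠ 0
    rw [map_mul, mul_ne_zero_iff, ihf, ihg]

/-- the condition for a whole list -/
noncomputable def lgpol (l : List (Bool × Fm F)) : MvPolynomial ℕ F :=
  (l.map fun p => p.2.gpol).prod

theorem lgpol_iff {l : List (Bool × Fm F)} {x : ℕ → F} :
    eval x (lgpol l) ≠ 0 ↔ ∀ p ∈ l, p.2.Good x := by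
  unfold lgpol
  induction l with
  | nil => simp
  | cons p l ih =>
    rw [List.map_cons, List.prod_cons, map_mul, mul_ne_zero_iff, ih, List.forall_mem_cons,
      Fm.good_iff]

/-- selection for several lists -/
theorem sel_many (hsel : P_SEL F) {ι : Type*} [DecidableEq ι] {k b : ℕ}
    (ls : ι → List (Bool × Fm F)) (hloc : ∀ t, ∀ p ∈ ls t, p.2.Loc b)
    (hrd : ∀ t u, rdl (ls t) u ≤ k) : ∀ (A : Finset ι) (s : ℕ) (S : Finset ℕ),
    (Phi k b k)^[A.card] s ≤ S.card →
    ∃ J ⊆ S, J.card = s ∧ ∀ t ∈ A, Nc J k (2 * k) (ls t) := by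
  intro A
  induction A using Finset.induction_on with
  | empty =>
    intro s S hS
    rw [Finset.card_empty, Function.iterate_zero, id] at hS
    obtain ⟨J, hJ, hJc⟩ := Finset.exists_subset_card_eq hS
    exact ⟨J, hJ, hJc, by simp⟩
  | insert t A ht ih =>
    intro s S hS
    rw [Finset.card_insert_of_notMem ht, Function.iterate_succ_apply] at hS
    obtain ⟨J', hJ', hJ'c, hJ'r⟩ := ih (Phi k b k s) S hS
    obtain ⟨J, hJ, hJc, hJr⟩ := hsel k b k le_rfl (ls t) J' s (hloc t)
      (fun u _ => hrd t u) hJ'c.ge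
    refine ⟨J, hJ.trans hJ', hJc, fun t' ht' => ?_⟩
    rw [Finset.mem_insert] at ht'
    rcases ht' with rfl | ht'
    · exact hJr
    · exact (hJ'r t' ht').anti hJ

variable {τ : Type} [Fintype τ] [DecidableEq τ]

/-- the value of the function -/
noncomputable def lval (ls : τ → List (Bool × Fm F)) (Ψ : MvPolynomial τ F) (x : ℕ → F) : F :=
  eval (fun t => W (ls t) x 0 1) Ψ

theorem W_MPF (l : List (Bool × Fm F)) : MPF (W l) := by
  induction l with
  | nil =>
    intro a b
    unfold W
    simp only [List.map_nil, List.prod_nil]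
    exact IsPF.const _
  | cons p l ih =>
    have : (W (p :: l)) = fun x => mat p x * W l x := by
      funext x
      exact W_cons p l x
    rw [this]
    exact (mat_MPF p).mul ih

omit [Fintype τ] [DecidableEq τ] in
theorem lval_PF (ls : τ → List (Bool × Fm F)) (Ψ : MvPolynomial τ F) : IsPF (lval ls Ψ) := by
  choose q hq using fun t => W_MPF (ls t) 0 1
  refine ⟨MvPolynomial.bind₁ q Ψ, fun x => ?_⟩
  rw [Pool.Agent.W2helper21.ROT.eval_bind]
  unfold lval
  congr 2
  funext t
  rw [hq]

theorem W_congr {l : List (Bool × Fm F)} {x x' : ℕ → F}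
    (h : ∀ p ∈ l, ∀ u ∈ p.2.vars, x u = x' u) : W l x = W l x' := by
  unfold W
  congr 1
  apply List.map_congr_left
  intro p hp
  exact mat_congr (h p hp)

omit [Fintype τ] [DecidableEq τ] in
theorem lval_congr {ls : τ → List (Bool × Fm F)} {n : ℕ}
    (hn : ∀ t, ∀ p ∈ ls t, ∀ u ∈ p.2.vars, u < n) (Ψ : MvPolynomial τ F)
    {x x' : ℕ → F} (h : ∀ l < n, x l = x' l) : lval ls Ψ x = lval ls Ψ x' := by
  unfold lval
  congr 2
  funext t
  rw [W_congr fun p hp u hu => h u (hn t p hp u hu)]

/-- number of modifications -/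
def Rn (k b T : ℕ) : ℕ := (Phi k b k)^[T] (Lb (Cz k (2 * k)) T)

/-- **Few modifications suffice for functions of formulas.** -/
theorem rigid [CharZero F] (hsel : P_SEL F) {k b n : ℕ} {ls : τ → List (Bool × Fm F)}
    (hloc : ∀ t, ∀ p ∈ ls t, p.2.Loc b) (hrd : ∀ t u, rdl (ls t) u ≤ k)
    (hn : ∀ t, ∀ p ∈ ls t, ∀ u ∈ p.2.vars, u < n) {a : ℕ → F}
    (hgood : ∀ t, ∀ p ∈ ls t, p.2.Good a) (Ψ : MvPolynomial τ F)
    (h : ∀ x, Md a (Rn k b (Fintype.card τ)) x → lval ls Ψ x = 0) (x0 : ℕ → F) :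
    lval ls Ψ x0 = 0 := by
  classical
  by_contra hx0
  set L := Lb (Cz k (2 * k)) (Fintype.card τ) with hLdef
  have hL0 : 0 < L := by
    rw [hLdef]
    unfold Lb
    omega
  let 𝒮 : Finset (Finset ℕ) := (Finset.range n).powerset.filter fun S =>
    ∃ x : ℕ → F, (∀ l, l ∉ S → x l = a l) ∧ lval ls Ψ x ≠ 0
  have h𝒮 : 𝒮.Nonempty := by
    refine ⟨Finset.range n, ?_⟩
    rw [Finset.mem_filter, Finset.mem_powerset]
    refine ⟨Finset.Subset.refl _, fun l => if l < n then x0 l else a l, fun l hl => ?_, ?_⟩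
    · rw [Finset.mem_range] at hl
      simp only [if_neg hl]
    · rw [lval_congr hn Ψ (x' := x0) (fun l hl => by simp only [if_pos hl])]
      exact hx0
  obtain ⟨S, hS, hmin⟩ := Finset.exists_min_image 𝒮 Finset.card h𝒮
  rw [Finset.mem_filter, Finset.mem_powerset] at hS
  obtain ⟨hSn, xS, hxS, hxSne⟩ := hS
  have hcard : Rn k b (Fintype.card τ) < S.card := by
    by_contra hlt
    push Not at hlt
    exact hxSne (h xS ⟨S, hlt, hxS⟩)
  obtain ⟨J, hJS, hJc, hJ⟩ := sel_many hsel ls hloc hrd (Finset.univ : Finset τ) L S (by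
    rw [Finset.card_univ]
    exact hcard.le)
  -- the enumeration of `J`
  let e : ℕ → ℕ := fun l => if h : l < L then J.orderEmbOfFin hJc ⟨l, h⟩ else 0
  have heJ : ∀ l < L, e l ∈ J := by
    intro l hl
    simp only [e]
    rw [dif_pos hl]
    exact Finset.orderEmbOfFin_mem _ _ _
  have hemono : ∀ l l', l < l' → l' < L → e l < e l' := by
    intro l l' hll hl'
    simp only [e]
    rw [dif_pos hl', dif_pos (hll.trans hl')]
    exact (J.orderEmbOfFin hJc).strictMono hll
  have heinj : ∀ l < L, ∀ l' < L, e l = e l' → l = l' := by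
    intro l hl l' hl' hll
    rcases lt_trichotomy l l' with h1 | h1 | h1
    · have := hemono l l' h1 hl'
      omega
    · exact h1
    · have := hemono l' l h1 hl
      omega
  have hesurj : ∀ u ∈ J, ∃ l < L, e l = u := by
    intro u hu
    have h1 : u ∈ Set.range (J.orderEmbOfFin hJc) := by
      rw [Finset.range_orderEmbOfFin]
      exact hu
    obtain ⟨⟨l, hl⟩, hlu⟩ := h1
    refine ⟨l, hl, ?_⟩
    simp only [e]
    rw [dif_pos hl]
    exact hlu
  -- generic values on `S \ J`
  let Z : (ℕ → F) → ℕ → F := fun x u => if u ∈ S \ J then x u else a u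
  let U : (ℕ → F) → ℕ → F := fun x u => if u ∈ S then x u else a u
  have hZPF : ∀ u, IsPF (fun x => Z x u) := by
    intro u
    by_cases hu : u ∈ S \ J
    · simp only [Z, if_pos hu]
      exact IsPF.coord _
    · simp only [Z, if_neg hu]
      exact IsPF.const _
  have hUPF : ∀ u, IsPF (fun x => U x u) := by
    intro u
    by_cases hu : u ∈ S
    · simp only [U, if_pos hu]
      exact IsPF.coord _
    · simp only [U, if_neg hu]
      exact IsPF.const _
  have hZa : Z a = a := by
    funext u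
    simp only [Z, ite_self]
  let μ : Option τ → (ℕ → F) → F := fun o x => match o with
    | none => lval ls Ψ (U x)
    | some t => eval (Z x) (lgpol (ls t))
  have hμPF : ∀ o, IsPF (μ o) := by
    intro o
    cases o with
    | none => exact (lval_PF ls Ψ).comp hUPF
    | some t =>
      have h0 : IsPF (fun x : ℕ → F => eval x (lgpol (ls t))) := ⟨lgpol (ls t), fun _ => rfl⟩
      exact h0.comp hZPF
  have hμ0 : ∀ o, ∃ x, μ o x ≠ 0 := by
    intro o
    cases o with
    | none =>
      refine ⟨xS, ?_⟩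
      show lval ls Ψ (U xS) ≠ 0
      have : U xS = xS := by
        funext u
        simp only [U]
        by_cases hu : u ∈ S
        · rw [if_pos hu]
        · rw [if_neg hu, hxS u hu]
      rw [this]
      exact hxSne
    | some t =>
      refine ⟨a, ?_⟩
      show eval (Z a) (lgpol (ls t)) ≠ 0
      rw [hZa]
      exact lgpol_iff.mpr (hgood t)
  obtain ⟨x1, hx1⟩ := IsPF.exists_common (Finset.univ : Finset (Option τ))
    (fun o _ => hμPF o) (fun o _ => hμ0 o)
  have hx1P : lval ls Ψ (U x1) ≠ 0 := hx1 none (Finset.mem_univ _)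
  have hx1g : ∀ t, ∀ p ∈ ls t, p.2.Good (Z x1) := fun t =>
    lgpol_iff.mp (hx1 (some t) (Finset.mem_univ _))
  -- points
  let idx : ℕ → ℕ := fun u => if h : ∃ l, l < L ∧ e l = u then Classical.choose h else 0
  have hidx : ∀ l < L, idx (e l) = l := by
    intro l hl
    have h1 : ∃ l', l' < L ∧ e l' = e l := ⟨l, hl, rfl⟩
    simp only [idx]
    rw [dif_pos h1]
    have h2 := Classical.choose_spec h1
    exact heinj _ h2.1 l hl h2.2
  obtain ⟨pt, hpt⟩ : ∃ pt : (ℕ → F) → ℕ → F, ∀ ξ u, pt ξ u =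
      if u ∈ J then ξ (idx u) else Z x1 u := ⟨_, fun _ _ => rfl⟩
  have hpt1 : ∀ ξ, ∀ l < L, pt ξ (e l) = ξ l := by
    intro ξ l hl
    rw [hpt, if_pos (heJ l hl), hidx l hl]
  have hpt3 : ∀ ξ u, u ∉ J → pt ξ u = Z x1 u := by
    intro ξ u hu
    rw [hpt, if_neg hu]
  have hpt2 : ∀ ξ u, (∀ l < L, e l ≠ u) → pt ξ u = Z x1 u := by
    intro ξ u hu
    apply hpt3
    intro huJ
    obtain ⟨l, hl, hlu⟩ := hesurj u huJ
    exact hu l hl hlu
  have hptJ : pt (fun l => a (e l)) = Z x1 := by
    funext u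
    rw [hpt]
    by_cases hu : u ∈ J
    · obtain ⟨l, hl, hlu⟩ := hesurj u hu
      rw [if_pos hu, ← hlu, hidx l hl]
      simp only [Z]
      rw [if_neg]
      rw [Finset.mem_sdiff, not_and_not_right]
      intro _
      exact heJ l hl
    · rw [if_neg hu]
  -- the chains
  have hRg : ∀ t, Rg L (fun l => a (e l)) (Cz k (2 * k)) (fun ξ => W (ls t) (pt ξ) 0 1) :=
    fun t => nc_rg (hJ t (Finset.mem_univ t)) hL0 (a := fun l => a (e l)) hpt1 hpt2 heJ hemono
      (by
        intro p hp
        rw [hptJ]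
        exact hx1g t p hp) 0 1
  choose C hCpoly hCrank Y V hYV using fun t => (hRg t).fin
  have hval : ∀ ξ, lval ls Ψ (pt ξ) =
      eval (fun t => Y t ⬝ᵥ (cp (C t) ξ 0 L *ᵥ V t)) Ψ := by
    intro ξ
    unfold lval
    congr 2
    funext t
    exact hYV t ξ
  let D : τ → ℕ → F → Matrix (Fin (Cz k (2 * k))) (Fin (Cz k (2 * k))) F :=
    fun t l s => C t l (a (e l) + s)
  have hDcp : ∀ t x i j, cp (D t) x i j = cp (C t) (fun l => a (e l) + x l) i j :=
    fun t x i j => rfl
  have hDpoly : ∀ t l, ∀ a' b', ∃ r : Polynomial F, ∀ s, r.eval s = D t l s a' b' := by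
    intro t l a' b'
    obtain ⟨r, hr⟩ := hCpoly t l a' b'
    refine ⟨r.comp (Polynomial.C (a (e l)) + Polynomial.X), fun s => ?_⟩
    rw [Polynomial.eval_comp, Polynomial.eval_add, Polynomial.eval_C, Polynomial.eval_X, hr]
  have hrank : ∀ t i j, i < j → j ≤ L → ∀ x, (cp (D t) x i j).rank ≤
      (cp (D t) (fun _ => 0) i j).rank := by
    intro t i j hij hj x
    rw [hDcp, hDcp]
    have h0 : (fun l => a (e l) + (fun _ : ℕ => (0 : F)) l) = fun l => a (e l) := by
      funext l
      simp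
    rw [h0]
    exact hCrank t i j hij hj _
  have hfin := aligned (τ := τ) hDpoly (L := L) (by rw [Fintype.card_fin]) hrank Y V Ψ (by
      intro i hi x hxi
      have h1 : MvPolynomial.eval (fun t => Y t ⬝ᵥ (cp (D t) x 0 L *ᵥ V t)) Ψ =
          lval ls Ψ (pt fun l => a (e l) + x l) := by
        rw [hval]
        rfl
      rw [h1]
      by_contra hne
      have hmem : S.erase (e i) ∈ 𝒮 := by
        rw [Finset.mem_filter, Finset.mem_powerset]
        refine ⟨(Finset.erase_subset _ _).trans hSn, pt fun l => a (e l) + x l, ?_, hne⟩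
        intro u hu
        by_cases huJ : u ∈ J
        · have hue : u = e i := by
            by_contra hcon
            exact hu (Finset.mem_erase.mpr ⟨hcon, hJS huJ⟩)
          rw [hue, hpt1 _ i hi, hxi, add_zero]
        · rw [hpt, if_neg huJ]
          simp only [Z]
          rw [if_neg]
          intro huS
          rw [Finset.mem_sdiff] at huS
          apply hu
          refine Finset.mem_erase.mpr ⟨?_, huS.1⟩
          rintro rfl
          exact huJ (heJ i hi)
      have h2 := hmin _ hmem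
      have h3 : (S.erase (e i)).card < S.card := Finset.card_erase_lt_of_mem (hJS (heJ i hi))
      omega) (fun l => x1 (e l) - a (e l))
  apply hx1P
  have h4 : U x1 = pt fun l => a (e l) + (x1 (e l) - a (e l)) := by
    funext u
    by_cases huJ : u ∈ J
    · obtain ⟨l, hl, hlu⟩ := hesurj u huJ
      rw [← hlu, hpt1 _ l hl]
      simp only [U]
      rw [if_pos (hJS (heJ l hl))]
      ring
    · rw [hpt3 _ u huJ]
      simp only [U, Z, Finset.mem_sdiff]
      by_cases huS : u ∈ S
      · rw [if_pos huS, if_pos ⟨huS, huJ⟩]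
      · rw [if_neg huS, if_neg (fun h => huS h.1)]
  rw [h4, ← hfin, hval]
  rfl

end Pool.Agent.W2helper21.RF
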