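import Pool.Agent.W2helper21.LP.Rigid

/-!
# Project RF: bounded-read arithmetic formulas of arbitrary depth (no multilinearity)

Definitions and exact statements (Props) of the pieces.  `F` is a field.
-/

namespace Pool.Agent.W2helper21.RF

open Matrix MvPolynomial Pool.Agent.W2helper94.PIT
open Pool.Agent.W2helper21.RK (Bk Reg rd struct)

/-- arithmetic formulas; a leaf is an arbitrary polynomial -/
inductive Fm (F : Type*) [Field F]
  | leaf (p : MvPolynomial ℕ F)
  | add (f g : Fm F)
  | mul (f g : Fm F)

namespace Fm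

variable {F : Type*} [Field F]

/-- the polynomial computed by a formula -/
noncomputable def poly : Fm F → MvPolynomial ℕ F
  | leaf p => p
  | add f g => f.poly + g.poly
  | mul f g => f.poly * g.poly

/-- the variables of the leaves -/
noncomputable def vars : Fm F → Finset ℕ
  | leaf p => p.vars
  | add f g => f.vars ∪ g.vars
  | mul f g => f.vars ∪ g.vars

open Classical in
/-- the number of leaves which depend on `u` -/
noncomputable def rdc : Fm F → ℕ → ℕ
  | leaf p, u => if u ∈ p.vars then 1 else 0
  | add f g, u => f.rdc u + g.rdc u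
  | mul f g, u => f.rdc u + g.rdc u

/-- every leaf depends on at most `b` variables -/
def Loc (b : ℕ) : Fm F → Prop
  | leaf p => p.vars.card ≤ b
  | add f g => f.Loc b ∧ g.Loc b
  | mul f g => f.Loc b ∧ g.Loc b

/-- no subformula vanishes at `x` -/
def Good (x : ℕ → F) : Fm F → Prop
  | leaf p => eval x p ≠ 0
  | add f g => f.Good x ∧ g.Good x ∧ eval x (f.poly + g.poly) ≠ 0
  | mul f g => f.Good x ∧ g.Good x

/-- no subformula is the zero polynomial -/
def NZ : Fm F → Prop
  | leaf p => p ≠ 0
  | add f g => f.NZ ∧ g.NZ ∧ f.poly + g.poly ≠ 0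
  | mul f g => f.NZ ∧ g.NZ

open Classical in
/-- the Strahler number (constants are ignored, a leaf with variables has number `0`) -/
noncomputable def st : Fm F → ℕ
  | leaf _ => 0
  | add f g => if f.vars = ∅ then g.st else if g.vars = ∅ then f.st else
      if f.st = g.st then f.st + 1 else max f.st g.st
  | mul f g => if f.vars = ∅ then g.st else if g.vars = ∅ then f.st else
      if f.st = g.st then f.st + 1 else max f.st g.st

open Classical in
/-- the number of leaves with at least one variable -/
noncomputable def nl : Fm F → ℕ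
  | leaf p => if p.vars = ∅ then 0 else 1
  | add f g => f.nl + g.nl
  | mul f g => f.nl + g.nl

end Fm

section

variable {F : Type*} [Field F]

/-- the matrix of one operation: `true` = multiplication by `p.2`, `false` = addition of `p.2` -/
noncomputable def mat (p : Bool × Fm F) (x : ℕ → F) : Matrix (Fin 2) (Fin 2) F :=
  if p.1 then !![eval x p.2.poly, 0; 0, 1] else !![1, eval x p.2.poly; 0, 1]

/-- the product of the matrices of a list of operations -/
noncomputable def W (l : List (Bool × Fm F)) (x : ℕ → F) : Matrix (Fin 2) (Fin 2) F :=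
  (l.map fun p => mat p x).prod

/-- reads of a list -/
noncomputable def rdl (l : List (Bool × Fm F)) (u : ℕ) : ℕ := (l.map fun p => p.2.rdc u).sum

/-- `l` is the list of the siblings on a path of the formula `D` which goes down from the root
(the last entry is the formula at the end of the path) -/
inductive Plug : Fm F → List (Bool × Fm F) → Prop
  | nil (D : Fm F) : Plug D [(false, D)]
  | addL {f g : Fm F} {l : List (Bool × Fm F)} (h : Plug f l) :
      Plug (Fm.add f g) ((false, g) :: l)
  | addR {f g : Fm F} {l : List (Bool × Fm F)} (h : Plug g l) :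
      Plug (Fm.add f g) ((false, f) :: l)
  | mulL {f g : Fm F} {l : List (Bool × Fm F)} (h : Plug f l) :
      Plug (Fm.mul f g) ((true, g) :: l)
  | mulR {f g : Fm F} {l : List (Bool × Fm F)} (h : Plug g l) :
      Plug (Fm.mul f g) ((true, f) :: l)

/-- the structure of a list of formulas with respect to a set `J` of variables -/
inductive Nc (J : Finset ℕ) (k : ℕ) : ℕ → List (Bool × Fm F) → Prop
  | flat (n : ℕ) (l : List (Bool × Fm F)) (v : ℕ → ℕ)
      (h : ∀ q (hq : q < l.length) u, u ∈ J → u ∈ (l[q]).2.vars → v q = u)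
      (hr : Reg v J k 0 l.length) : Nc J k n l
  | split (n : ℕ) (l1 l2 l' : List (Bool × Fm F)) (b : Bool) (D : Fm F) (hP : Plug D l')
      (h1 : Nc J k n l1) (h' : Nc J k n l') (h2 : Nc J k n l2) :
      Nc J k (n + 1) (l1 ++ (b, D) :: l2)

/-- the sizes in the selection theorem -/
def Phi (k b : ℕ) : ℕ → ℕ → ℕ
  | 0, s => Bk k s
  | r + 1, s =>
      let B := (Phi k b r)^[5] s
      let m' := B + 1
      let E := Bk k ((Phi k b r)^[5] s) * (k * m' + 1)
      let m := (b + 1) * 2 ^ E
      Bk k s * (k * m + 1) + m + E + B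

/-- PIECE CAT (caterpillars).  Proof by induction on `D`.  Leaf: impossible, since
`(b+1) * 2^r ≤ |S| ≤ |vars| ≤ b`.  `D = add f g` or `mul f g`: if `r = 0` take `[(false, D)]` and
`J = ∅`.  Otherwise let `f` be the child with `|S ∩ vars f| ≥ |S| / 2` (the other case is
symmetric).  If `S ⊆ vars f`: apply the induction hypothesis to `f, S, r`, list `(op, g) :: l'`,
same `J`.  Otherwise choose `u ∈ S \ vars f` (so `u ∈ vars g`), apply it to `f, S ∩ vars f, r - 1`
and take `J = insert u J'`: for the first entry `g` the exception is `u` (the others are in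
`vars f`, hence in an entry of `l'`, because the variables of the entries of `l'` together are
`vars f`); the entries of `l'` do not contain `u`. -/
def P_CAT (F : Type*) [Field F] : Prop :=
  ∀ (b r : ℕ) (D : Fm F) (S : Finset ℕ), D.Loc b → S ⊆ D.vars → (b + 1) * 2 ^ r ≤ S.card →
    ∃ l : List (Bool × Fm F), Plug D l ∧ ∃ J ⊆ S, r ≤ J.card ∧
      ∀ l1 p l2, l = l1 ++ p :: l2 → ∃ u0, ∀ u ∈ J, u ≠ u0 → u ∈ p.2.vars →
        ∃ p' ∈ l1 ++ l2, u ∈ p'.2.vars

/-- PIECE SEL (selection).  Proof by induction on `r`.  Write `Φ r = Phi k b r`.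

(F) *Flat lemma*: if every entry of `l` has at most one variable in `J0`, `rdl l u ≤ k` on `J0`
and `Bk k s ≤ |J0|` then there is `J ⊆ J0`, `|J| = s` with `Nc J k n l` for all `n` (constructor
`flat`): let `v q` be the variable of `J0` in `l[q]` if there is one and a number outside of `J0`
otherwise, and apply `RK.struct v k s 0 l.length` (the number of `q` with `v q = u` is at most
`rdl l u`).
(I) *Independence*: if every entry of `l` has at most `m` variables in `S`, `rdl l u ≤ k` on `S`
and `t * (k * m + 1) ≤ |S|`, there is `S' ⊆ S`, `|S'| = t`, with at most one variable of `S'` in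
every entry: `LP.indep` with `Nb u` = the variables of `S` in entries that contain `u`
(`∅` if `u ∉ S`).
(M) `Nc` is monotone in `n` and antitone in `J` (`Reg.mono`).
(L) *Several lists*: if the lists `l_1 … l_c` satisfy `rdl l_i u ≤ r` on `S` and
`(Φ r)^[c] s ≤ |S|` then there is `J ⊆ S`, `|J| = s` with `Nc J k (2r) l_i` for all `i`
(induction hypothesis applied `c` times, (M)).

`r = 0`: no variable of `S` is in an entry: (F).
`r + 1`: let `B, m', E, m` be as in `Phi`.
Case 1: some entry `D` of `l = l1 ++ (β, D) :: l2` has `≥ m` variables in `S`; `S1` these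
variables; CAT with `r := E` gives `l'`, `Plug D l'`, `J1 ⊆ S1`, `|J1| ≥ E`.  On `J1` the lists
`l1, l2` have at most `r` reads (one read is in `D`; `rdl l' u = rdc D u`).
Case 1a: some entry `p` of `l' = l1' ++ p :: l2'` has `≥ m' = B + 1` variables in `J1`; drop the
exception `u0`, get `S2`, `|S2| ≥ B`; on `S2` all of `l1', [(false, p.2)], l2', l1, l2` have at most
`r` reads.  (L) with `c = 5` gives `J`; `l' = l1' ++ p :: l2'` is `Nc J k (2r+1)` by `split` with
`Plug p.2 [(false, p.2)]`; `l` is `Nc J k (2r+2)` by `split`.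
Case 1b: otherwise (I) with `m'` and `t = Bk k ((Φ r)^[5] s)`, (F) with `s := (Φ r)^[5] s` for
`l'`, then (L) for `l1, l2` (`c = 2`; use that `(Φ r)^[5] s ≥ (Φ r)^[2] s`, as `Φ r s ≥ s`), `split`.
Case 2: all entries have `< m` variables in `S`: (I), (F). -/
def P_SEL (F : Type*) [Field F] : Prop :=
  ∀ (k b r : ℕ), r ≤ k → ∀ (l : List (Bool × Fm F)) (S : Finset ℕ) (s : ℕ),
    (∀ p ∈ l, p.2.Loc b) → (∀ u ∈ S, rdl l u ≤ r) → Phi k b r s ≤ S.card →
    ∃ J ⊆ S, J.card = s ∧ Nc J k (2 * r) l

/-- PIECE STR (Strahler number).  `2 ^ st ≤` number of leaves with variables (if there are any);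
the number of leaves with variables of a formula in the variables `0 … n-1` in which each is read
at most `k` times is at most `k * n`. -/
def P_STR (F : Type*) [Field F] : Prop :=
  ∀ (D : Fm F), D.vars ≠ ∅ → 2 ^ D.st ≤ D.nl ∧
    ∀ n k : ℕ, (∀ u ∈ D.vars, u < n) → (∀ u, D.rdc u ≤ k) → D.nl ≤ n * k

/-- PIECE PATH (the path of maximal Strahler number).  For a formula with variables there is a list
`l` with `Plug D l` and: every entry has Strahler number `< D.st`, or no variables, or
(only if `D.st = 0`) is a leaf.  Proof: induction on `D`: `leaf`: `[(false, leaf p)]`.  `add f g`: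
`f.vars = ∅`: go to `g`; `g.vars = ∅`: go to `f`; `f.st = g.st`: take
`[(false, g), (false, f)]` (`addL` of `nil`), both have Strahler number `D.st - 1`; otherwise go to
the child with the larger number. -/
def P_PATH (F : Type*) [Field F] : Prop :=
  ∀ (D : Fm F), D.vars ≠ ∅ → ∃ l : List (Bool × Fm F), Plug D l ∧
    ∀ p ∈ l, p.2.st < D.st ∨ p.2.vars = ∅ ∨ (D.st = 0 ∧ ∃ q, p.2 = Fm.leaf q)

/-- PIECE RED (reduction to formulas without zero subformulas).  Every nonzero polynomial computed
by a formula is computed by one without zero subformulas, with no more reads, leaves with no more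
variables, no larger Strahler number (leave out children which are zero), no more variables. -/
def P_RED (F : Type*) [Field F] : Prop :=
  ∀ (D : Fm F), D.poly ≠ 0 → ∃ D' : Fm F, D'.poly = D.poly ∧ D'.NZ ∧ D'.vars ⊆ D.vars ∧
    (∀ u, D'.rdc u ≤ D.rdc u) ∧ (∀ b, D.Loc b → D'.Loc b) ∧ D'.nl ≤ D.nl

end

end Pool.Agent.W2helper21.RF
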